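import Pool.Agent.U36.SD.Stm

/-!
Project SD, package FF: powers of Frobenius elements fix the roots of `ℓ`-th powers modulo `Q`.
-/

set_option autoImplicit false
set_option linter.unusedSectionVars false

open NumberField IsDedekindDomain Pool.Agent.W401.Cheb

namespace Pool.Agent.U128.SD.FF

theorem fix {K : Type} [Field K] [NumberField K] {τ : GK K}
    {Q : Ideal (𝓞 (AlgebraicClosure K))} (hQp : Q.IsPrime)
    (hτQ : ∀ x : 𝓞 (AlgebraicClosure K), x ∈ Q → τ • x ∈ Q) (N : ℕ) (hN : 0 < N)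
    (c t : 𝓞 (AlgebraicClosure K)) (hc0 : c ∉ Q) (hNQ0 : (N : 𝓞 (AlgebraicClosure K)) ∉ Q)
    (hct : c - t ^ N ∈ Q) (hτc : τ • c = c) (hτt : τ • t = t)
    (hτZ : ∀ ζ : AlgebraicClosure K, ζ ^ N = 1 → τ ζ = ζ) (ρ : AlgebraicClosure K)
    (hρ : ρ ^ N = algebraMap (𝓞 (AlgebraicClosure K)) (AlgebraicClosure K) c) : τ ρ = ρ := by
  classical
  by_contra hτρ
  -- integral elements
  have hρi : IsIntegral ℤ (ρ) := by
    refine IsIntegral.of_pow hN ?_
    rw [hρ]
    exact RingOfIntegers.isIntegral_coe c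
  set r : 𝓞 (AlgebraicClosure K) := ⟨ρ, hρi⟩ with hr
  have hrN : r ^ N = c := by
    apply RingOfIntegers.ext
    change (ρ) ^ N = _
    rw [hρ]
  have hr0 : r ∉ Q := by
    intro h'
    apply hc0
    rw [← hrN]
    exact Q.pow_mem_of_mem h' _ hN
  -- a primitive root of unity
  have hNz : NeZero N := ⟨hN.ne'⟩
  have hNz' : NeZero (N : AlgebraicClosure K) := ⟨Nat.cast_ne_zero.2 hN.ne'⟩
  obtain ⟨ζ₀, hζ₀⟩ := HasEnoughRootsOfUnity.exists_primitiveRoot (AlgebraicClosure K) N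
  have hζ₀i : IsIntegral ℤ ζ₀ := IsIntegral.of_pow hN (by
    rw [hζ₀.pow_eq_one]
    exact isIntegral_one)
  set z₀ : 𝓞 (AlgebraicClosure K) := ⟨ζ₀, hζ₀i⟩ with hz₀
  have hz₀p : IsPrimitiveRoot z₀ N := by
    apply IsPrimitiveRoot.of_map_of_injective
      (f := algebraMap (𝓞 (AlgebraicClosure K)) (AlgebraicClosure K)) (h := ?_)
      (RingOfIntegers.coe_injective)
    exact hζ₀
  have hprod := hz₀p.pow_sub_pow_eq_prod_sub_mul (x := r) (y := t) hN
  have hmem : r ^ N - t ^ N ∈ Q := by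
    rw [hrN]
    exact hct
  rw [hprod] at hmem
  obtain ⟨z, hz, hzQ⟩ := hQp.prod_mem_iff.1 hmem
  rw [Polynomial.mem_nthRootsFinset hN] at hz
  have hτz : τ • (r - z * t) = τ • r - z * t := by
    rw [smul_sub, smul_mul', hτt]
    congr 2
    apply RingOfIntegers.ext
    change τ (z : AlgebraicClosure K) = z
    apply hτZ
    have := congrArg (algebraMap (𝓞 (AlgebraicClosure K)) (AlgebraicClosure K)) hz
    rwa [map_pow, map_one] at this
  have h4 : τ • r - r ∈ Q := by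
    have h5 := hτQ _ hzQ
    rw [hτz] at h5
    have h6 := Q.sub_mem h5 hzQ
    have e : τ • r - z * t - (r - z * t) = τ • r - r := by ring
    rwa [e] at h6
  -- the root of unity
  have hρ0 : ρ ≠ 0 := by
    intro h0
    apply hr0
    have : r = 0 := by
      apply RingOfIntegers.ext
      change ρ = 0
      exact h0
    rw [this]
    exact Q.zero_mem
  have hτρN : (τ ρ) ^ N = ρ ^ N := by
    rw [← map_pow, hρ]
    exact congrArg (algebraMap (𝓞 (AlgebraicClosure K)) (AlgebraicClosure K)) hτc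
  set ω : AlgebraicClosure K := τ (ρ) / ρ with hω
  have hωN : ω ^ N = 1 := by
    rw [hω, div_pow, hτρN, div_self]
    exact pow_ne_zero _ hρ0
  have hωi : IsIntegral ℤ ω := IsIntegral.of_pow hN (by
    rw [hωN]
    exact isIntegral_one)
  set w : 𝓞 (AlgebraicClosure K) := ⟨ω, hωi⟩ with hw
  have hτr : τ • r = w * r := by
    apply RingOfIntegers.ext
    change τ (ρ) = ω * ρ
    rw [hω, div_mul_cancel₀ _ hρ0]
  have h7 : (w - 1) * r ∈ Q := by
    rw [sub_mul, one_mul, ← hτr]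
    exact h4
  have h8 : w - 1 ∈ Q := (hQp.mem_or_mem h7).resolve_right hr0
  have hω1 : ω ≠ 1 := by
    intro h1
    apply hτρ
    rw [hω, div_eq_one_iff_eq hρ0] at h1
    exact h1
  have hw1 : w - 1 ≠ 0 := by
    intro h0
    apply hω1
    have h1 := congrArg (algebraMap (𝓞 (AlgebraicClosure K)) (AlgebraicClosure K)) h0
    rw [map_sub, map_one, map_zero, sub_eq_zero] at h1
    exact h1
  have hwN : w ^ N = 1 := by
    apply RingOfIntegers.ext
    change ω ^ N = _
    rw [hωN]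
    rfl
  have hgeom : ∑ j ∈ Finset.range N, w ^ j = 0 := by
    have h1 := geom_sum_mul w N
    rw [hwN, sub_self] at h1
    exact (mul_eq_zero.1 h1).resolve_right hw1
  have hNQ : (N : 𝓞 (AlgebraicClosure K)) ∈ Q := by
    have h1 : ∑ j ∈ Finset.range N, (w ^ j - 1) ∈ Q := by
      refine Q.sum_mem fun j _ => ?_
      obtain ⟨u, hu⟩ := sub_one_dvd_pow_sub_one w j
      rw [hu]
      exact Q.mul_mem_right _ h8
    rw [Finset.sum_sub_distrib, hgeom, Finset.sum_const, Finset.card_range, nsmul_eq_mul, mul_one,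
      zero_sub, neg_mem_iff] at h1
    exact h1
  exact hNQ0 hNQ

theorem t_FF : Pool.Agent.U36.SD.S_FF := by
  intro K _ _ v σ Q hQm hQv hQ h ℓ hh hℓ c t hc hℓQ hct hσc hσt hσZ z hz
  have hq0 : 0 < Ideal.absNorm v.asIdeal := by
    rw [Nat.pos_iff_ne_zero, Ne, Ideal.absNorm_eq_zero_iff]
    exact v.ne_bot
  have hσQ : ∀ x : 𝓞 (AlgebraicClosure K), x ∈ Q → σ • x ∈ Q := by
    intro x hx
    have h1 := hQ x
    have h2 : x ^ Ideal.absNorm v.asIdeal ∈ Q := Q.pow_mem_of_mem hx _ hq0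
    have h3 := Q.add_mem h1 h2
    rwa [sub_add_cancel] at h3
  have hτQ : ∀ n : ℕ, ∀ x : 𝓞 (AlgebraicClosure K), x ∈ Q → (σ ^ n) • x ∈ Q := by
    intro n
    induction n with
    | zero => intro x hx; rwa [pow_zero, one_smul]
    | succ n ih => intro x hx; rw [pow_succ, mul_smul]; exact ih _ (hσQ x hx)
  exact fix hQm.isPrime (hτQ h) ℓ hℓ c t hc hℓQ hct hσc hσt hσZ z hz

end Pool.Agent.U128.SD.FF
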